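import Mathlib

set_option autoImplicit false

/-!
# Collision probabilities modulo `m`-th powers
-/

namespace Pool.Agent.Q100.TC

open Finset

/-- Fibres of equal size `w`: the collision probability of the image of a distribution that is close to
the uniform distribution in the mean square. -/
theorem coll_fib {G Q : Type*} [Fintype G] [Fintype Q] [DecidableEq Q] (f : G → Q) (w : ℕ)
    (hw : ∀ q, (univ.filter (fun C => f C = q)).card = w) (P : G → ℝ) (hP : ∑ C, P C = 1)
    (hh : 0 < Fintype.card G) (ε : ℝ)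
    (heq : ∑ C, (P C - 1 / Fintype.card G) ^ 2 ≤ ε / Fintype.card G) :
    1 ≤ (Fintype.card Q : ℝ) * ∑ q, (∑ C ∈ univ.filter (fun C => f C = q), P C) ^ 2 ∧
    (Fintype.card Q : ℝ) * ∑ q, (∑ C ∈ univ.filter (fun C => f C = q), P C) ^ 2 ≤ 1 + ε := by
  classical
  have hcard : Fintype.card G = Fintype.card Q * w := by
    have h1 : (univ : Finset G).card = ∑ q : Q, (univ.filter (fun C => f C = q)).card :=
      card_eq_sum_card_fiberwise (fun C _ => mem_coe.2 (mem_univ (f C)))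
    rw [card_univ] at h1
    rw [h1, sum_congr rfl fun q _ => hw q, sum_const, card_univ, smul_eq_mul]
  have hw0 : 0 < w := Nat.pos_of_ne_zero fun h => by rw [h, mul_zero] at hcard; omega
  have hn0 : 0 < Fintype.card Q := Nat.pos_of_ne_zero fun h => by
    rw [h, zero_mul] at hcard; omega
  have hwr : (0 : ℝ) < w := by exact_mod_cast hw0
  have hnr : (0 : ℝ) < Fintype.card Q := by exact_mod_cast hn0
  have hhr : (0 : ℝ) < Fintype.card G := by exact_mod_cast hh
  have hcr : (Fintype.card G : ℝ) = Fintype.card Q * w := by exact_mod_cast hcard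
  obtain ⟨n, hn⟩ : ∃ n : ℝ, n = Fintype.card Q := ⟨_, rfl⟩
  obtain ⟨h, hhd⟩ : ∃ h : ℝ, h = Fintype.card G := ⟨_, rfl⟩
  rw [← hn] at hnr hcr ⊢
  rw [← hhd] at hhr hcr heq
  set R : Q → ℝ := fun q => ∑ C ∈ univ.filter (fun C => f C = q), P C with hR
  have hRsum : ∑ q, R q = 1 := by
    rw [← hP, hR]
    exact sum_fiberwise univ f P
  have hdev : ∀ q, R q - 1 / n = ∑ C ∈ univ.filter (fun C => f C = q), (P C - 1 / h) := by
    intro q
    rw [sum_sub_distrib, sum_const, hw q, nsmul_eq_mul]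
    have : (w : ℝ) * (1 / h) = 1 / n := by
      rw [hcr]; field_simp
    rw [this]
  have hsq : ∀ q, (R q - 1 / n) ^ 2 ≤
      (w : ℝ) * ∑ C ∈ univ.filter (fun C => f C = q), (P C - 1 / h) ^ 2 := by
    intro q
    rw [hdev q]
    have := sq_sum_le_card_mul_sum_sq (s := univ.filter (fun C => f C = q))
      (f := fun C => P C - 1 / h)
    rw [hw q] at this
    exact this
  have hsum : ∑ q, (R q - 1 / n) ^ 2 ≤ ε / n := by
    calc ∑ q, (R q - 1 / n) ^ 2
        ≤ ∑ q, (w : ℝ) * ∑ C ∈ univ.filter (fun C => f C = q), (P C - 1 / h) ^ 2 :=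
          sum_le_sum fun q _ => hsq q
      _ = (w : ℝ) * ∑ C, (P C - 1 / h) ^ 2 := by
          rw [← mul_sum, sum_fiberwise univ f (fun C => (P C - 1 / h) ^ 2)]
      _ ≤ (w : ℝ) * (ε / h) := mul_le_mul_of_nonneg_left heq hwr.le
      _ = ε / n := by rw [hcr]; field_simp
  have hexp : ∑ q, (R q) ^ 2 = 1 / n + ∑ q, (R q - 1 / n) ^ 2 := by
    have h1 : ∀ q, (R q) ^ 2 = (R q - 1 / n) ^ 2 + 2 / n * R q - 1 / n ^ 2 := by
      intro q
      ring
    rw [sum_congr rfl fun q _ => h1 q, sum_sub_distrib, sum_add_distrib, ← mul_sum, hRsum,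
      sum_const, card_univ, nsmul_eq_mul, ← hn]
    generalize ∑ q, (R q - 1 / n) ^ 2 = S
    field_simp
    ring
  rw [hexp]
  have hnn : 0 ≤ ∑ q, (R q - 1 / n) ^ 2 := sum_nonneg fun q _ => sq_nonneg _
  have h3 : n * (1 / n + ∑ q, (R q - 1 / n) ^ 2) = 1 + n * ∑ q, (R q - 1 / n) ^ 2 := by
    field_simp
  rw [h3]
  refine ⟨by nlinarith, ?_⟩
  have h4 : n * ∑ q, (R q - 1 / n) ^ 2 ≤ n * (ε / n) := mul_le_mul_of_nonneg_left hsum hnr.le
  have h5 : n * (ε / n) = ε := by field_simp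
  linarith

open scoped Classical in
/-- the weights of the pairs with the same class modulo `m`-th powers -/
noncomputable def pairs {G : Type*} [CommGroup G] [Fintype G] (c : G → ℕ) (m : ℕ) : ℝ :=
  ∑ C : G, ∑ C' : G, if ∃ B : G, C = C' * B ^ m then (c C : ℝ) * (c C' : ℝ) else 0

/-- The collision probability modulo `m`-th powers and the number of the elements killed by `m`. -/
theorem coll_pow {G : Type*} [CommGroup G] [Fintype G] (c : G → ℕ) (m : ℕ) (hpos : 0 < ∑ C, c C)
    (ε : ℝ)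
    (heq : (∑ C : G, ((c C : ℝ) / ((∑ C' : G, c C' : ℕ) : ℝ) - 1 / Nat.card G) ^ 2) / Nat.card G ≤
      ε * (1 / Nat.card G) ^ 2) :
    1 ≤ (Nat.card {x : G // x ^ m = 1} : ℝ) * (pairs c m / ((∑ C' : G, c C' : ℕ) : ℝ) ^ 2) ∧
    (Nat.card {x : G // x ^ m = 1} : ℝ) * (pairs c m / ((∑ C' : G, c C' : ℕ) : ℝ) ^ 2) ≤ 1 + ε := by
  classical
  obtain ⟨T, hT⟩ : ∃ T : ℝ, T = ((∑ C' : G, c C' : ℕ) : ℝ) := ⟨_, rfl⟩
  have hT0 : 0 < T := by rw [hT]; exact_mod_cast hpos
  rw [← hT] at heq ⊢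
  have hh : 0 < Fintype.card G := Fintype.card_pos
  have hhr : (0 : ℝ) < Fintype.card G := by exact_mod_cast hh
  rw [Nat.card_eq_fintype_card] at heq
  have hP : ∑ C, (c C : ℝ) / T = 1 := by
    rw [← sum_div, hT]
    push_cast
    have : (∑ C' : G, (c C' : ℝ)) ≠ 0 := by
      have h1 : ((∑ C' : G, c C' : ℕ) : ℝ) ≠ 0 := by rw [← hT]; exact hT0.ne'
      push_cast at h1
      exact h1
    exact div_self this
  have heq' : ∑ C : G, ((c C : ℝ) / T - 1 / Fintype.card G) ^ 2 ≤ ε / Fintype.card G := by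
    rw [div_le_iff₀ hhr] at heq
    refine heq.trans (le_of_eq ?_)
    field_simp
  set N : Subgroup G := (powMonoidHom m : G →* G).range with hN
  -- the fibres
  have hfib : ∀ q : G ⧸ N, (univ.filter (fun C : G => (QuotientGroup.mk C : G ⧸ N) = q)).card =
      Nat.card N := by
    intro q
    obtain ⟨g, rfl⟩ := QuotientGroup.mk_surjective q
    rw [← Fintype.card_subtype, ← Nat.card_eq_fintype_card]
    refine Nat.card_congr ⟨fun x => ⟨g⁻¹ * x.1, ?_⟩, fun y => ⟨g * y.1, ?_⟩, ?_, ?_⟩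
    · exact QuotientGroup.eq.1 x.2.symm
    · exact (QuotientGroup.eq.2 (by simp)).symm
    · intro x
      exact Subtype.ext (by simp)
    · intro y
      exact Subtype.ext (by simp)
  obtain ⟨h1, h2⟩ := coll_fib (fun C : G => (QuotientGroup.mk C : G ⧸ N)) (Nat.card N) hfib
    (fun C => (c C : ℝ) / T) hP hh ε heq'
  -- the number of the cosets
  have hindex : (Fintype.card (G ⧸ N)) = Nat.card {x : G // x ^ m = 1} := by
    have e1 : Nat.card (G ⧸ N) * Nat.card N = Nat.card G := by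
      rw [← Subgroup.index]
      exact Subgroup.index_mul_card N
    have e2 : Nat.card (powMonoidHom m : G →* G).ker * Nat.card N = Nat.card G := by
      have e3 := Subgroup.card_eq_card_quotient_mul_card_subgroup (powMonoidHom m : G →* G).ker
      have e4 : Nat.card (G ⧸ (powMonoidHom m : G →* G).ker) = Nat.card N :=
        Nat.card_congr (QuotientGroup.quotientKerEquivRange (powMonoidHom m : G →* G)).toEquiv
      rw [e3, e4, mul_comm]
    have hNpos : 0 < Nat.card N := Nat.card_pos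
    have e5 : Nat.card (G ⧸ N) = Nat.card (powMonoidHom m : G →* G).ker :=
      Nat.eq_of_mul_eq_mul_right hNpos (e1.trans e2.symm)
    rw [← Nat.card_eq_fintype_card, e5]
    exact Nat.card_congr (Equiv.subtypeEquivRight fun x => by
      rw [MonoidHom.mem_ker, powMonoidHom_apply])
  -- pairs
  have hpairs : ∑ q : G ⧸ N, (∑ C ∈ univ.filter (fun C : G => (QuotientGroup.mk C : G ⧸ N) = q),
      (c C : ℝ) / T) ^ 2 = pairs c m / T ^ 2 := by
    have e1 : ∀ q : G ⧸ N, (∑ C ∈ univ.filter (fun C : G => (QuotientGroup.mk C : G ⧸ N) = q),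
        (c C : ℝ) / T) ^ 2 = ∑ C ∈ univ.filter (fun C : G => (QuotientGroup.mk C : G ⧸ N) = q),
          ∑ C' : G, if (QuotientGroup.mk C : G ⧸ N) = QuotientGroup.mk C' then
            (c C : ℝ) * (c C' : ℝ) / T ^ 2 else 0 := by
      intro q
      rw [sq, sum_mul]
      refine sum_congr rfl fun C hC => ?_
      rw [mul_sum, sum_filter]
      refine sum_congr rfl fun C' _ => ?_
      have hC' := (mem_filter.1 hC).2
      rw [hC']
      by_cases h3 : (QuotientGroup.mk C' : G ⧸ N) = q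
      · rw [if_pos h3, if_pos h3.symm]
        field_simp
      · rw [if_neg h3, if_neg (fun h4 => h3 h4.symm)]
    rw [sum_congr rfl fun q _ => e1 q]
    rw [sum_fiberwise univ (fun C : G => (QuotientGroup.mk C : G ⧸ N)) (fun C =>
      ∑ C' : G, if (QuotientGroup.mk C : G ⧸ N) = QuotientGroup.mk C' then
            (c C : ℝ) * (c C' : ℝ) / T ^ 2 else 0)]
    unfold pairs
    rw [sum_div]
    refine sum_congr rfl fun C _ => ?_
    rw [sum_div]
    refine sum_congr rfl fun C' _ => ?_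
    have h3 : (QuotientGroup.mk C : G ⧸ N) = QuotientGroup.mk C' ↔ ∃ B : G, C = C' * B ^ m := by
      rw [eq_comm, QuotientGroup.eq, hN]
      constructor
      · rintro ⟨B, hB⟩
        rw [powMonoidHom_apply] at hB
        exact ⟨B, by rw [hB]; simp⟩
      · rintro ⟨B, hB⟩
        exact ⟨B, by rw [powMonoidHom_apply, hB]; simp⟩
    by_cases h4 : ∃ B : G, C = C' * B ^ m
    · rw [if_pos h4, if_pos (h3.2 h4)]
    · rw [if_neg h4, if_neg (fun h5 => h4 (h3.1 h5)), zero_div]
  rw [hpairs, hindex] at h1 h2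
  exact ⟨h1, h2⟩

/-- the number of the elements killed by a prime number `p` is a power of `p` -/
lemma card_pow {G : Type*} [CommGroup G] [Finite G] (p : ℕ) (hp : p.Prime) :
    ∃ r : ℕ, Nat.card {x : G // x ^ p = 1} = p ^ r := by
  have : Fact p.Prime := ⟨hp⟩
  have h1 : Nat.card {x : G // x ^ p = 1} = Nat.card (powMonoidHom p : G →* G).ker :=
    Nat.card_congr (Equiv.subtypeEquivRight fun x => by
      rw [MonoidHom.mem_ker, powMonoidHom_apply])
  have h2 : IsPGroup p (powMonoidHom p : G →* G).ker := fun x => ⟨1, by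
    rw [pow_one]
    apply Subtype.ext
    have := x.2
    rw [MonoidHom.mem_ker, powMonoidHom_apply] at this
    simpa using this⟩
  obtain ⟨r, hr⟩ := IsPGroup.iff_card.1 h2
  exact ⟨r, h1.trans hr⟩

/-- reading off the exponent -/
lemma read_exp {p r : ℕ} (hp : 1 < p) {κ ε : ℝ} (hε : 1 + ε < p)
    (h1 : 1 ≤ ((p ^ r : ℕ) : ℝ) * κ) (h2 : ((p ^ r : ℕ) : ℝ) * κ ≤ 1 + ε) :
    r = ⌈Real.logb p (1 / κ)⌉₊ := by
  have hp0 : (0 : ℝ) < p := by
    have : 0 < p := by omega
    exact_mod_cast this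
  have hp1 : (1 : ℝ) < p := by exact_mod_cast hp
  have hpr : (0 : ℝ) < (p : ℝ) ^ r := pow_pos hp0 r
  push_cast at h1 h2
  have hκ : 0 < κ := by
    by_contra hcon
    push Not at hcon
    nlinarith
  have h3 : 1 / κ ≤ (p : ℝ) ^ r := by
    rw [div_le_iff₀ hκ]; exact h1
  have h4 : (p : ℝ) ^ r < p * (1 / κ) := by
    rw [mul_one_div, lt_div_iff₀ hκ]; linarith
  have hinv : 0 < 1 / κ := one_div_pos.2 hκ
  apply le_antisymm
  · rcases Nat.eq_zero_or_pos r with h0 | h0
    · omega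
    · obtain ⟨s, rfl⟩ : ∃ s, r = s + 1 := ⟨r - 1, by omega⟩
      rw [Nat.succ_le_iff, Nat.lt_ceil, Real.lt_logb_iff_rpow_lt hp1 hinv, Real.rpow_natCast]
      rw [pow_succ, mul_comm] at h4
      exact lt_of_mul_lt_mul_left h4 hp0.le
  · rw [Nat.ceil_le, Real.logb_le_iff_le_rpow hp1 hinv, Real.rpow_natCast]
    exact h3

end Pool.Agent.Q100.TC
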